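import Mathlib
import Pool.Agent.L0h61.MUM.Fin

/-!
# A locally compact Mumford group with centre the circle that is not a generalized Heisenberg group

The group: for every odd prime `p` let `K_p = (ℤ/p⁸)² × (ℤ/p⁴)²` with its standard alternating form
`∇_p` with values in `ℝ/ℤ`, and `L_p = ⟨p²e + g, p⁴f + pg + p²h, p⁴e, p⁶f⟩`, a subgroup with
`L_p^⊥ = L_p`.  Then `K` is the restricted product of the `K_p` with respect to the `L_p`, and
`G = 𝕋 × K` with the product `(s, x)(t, y) = (s + t + ∇(x, y), x + y)`.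
-/

set_option autoImplicit false

open scoped commutatorElement

namespace Pool.Agent.Results.MP_9969af_al.MumfordNotHeisenberg

/-- `G` is a locally compact (Hausdorff) group with `[G, G] ≤ Z(G)` and `Z(G) ≅ 𝕋` whose Mumford
map `G/Z(G) → (G/Z(G))^`, `x̄ ↦ (ȳ ↦ [x, y])`, is an isomorphism of topological groups. -/
def IsMumfordGroup.{x} (G : Type x) [Group G] [TopologicalSpace G] : Prop :=
  IsTopologicalGroup G ∧ T2Space G ∧ LocallyCompactSpace G ∧
  ∃ hnil : ∀ x y : G, ⁅x, y⁆ ∈ Subgroup.center G,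
  ∃ t : Subgroup.center G ≃ₜ* Circle,
  ∃ M : (G ⧸ Subgroup.center G) ≃ₜ* PontryaginDual (G ⧸ Subgroup.center G),
    ∀ x y : G, M (x : G ⧸ Subgroup.center G) (y : G ⧸ Subgroup.center G)
      = t ⟨⁅x, y⁆, hnil x y⟩

/-- `G` is isomorphic as a topological group to `ℍ(ω) = A × E × F` (product topology, product
`(a,b,c)(a',b',c') = (a+a'+ω(b,c'), b+b', c+c')`) for some topological abelian groups `A, E, F` and
some continuous bilinear map `ω : E × F → A`. -/
def IsGeneralizedHeisenberg.{u, v, w, x} (G : Type x) [Group G] [TopologicalSpace G] : Prop :=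
  ∃ (A : Type u) (E : Type v) (F : Type w)
    (_ : AddCommGroup A) (_ : TopologicalSpace A) (_ : IsTopologicalAddGroup A)
    (_ : AddCommGroup E) (_ : TopologicalSpace E) (_ : IsTopologicalAddGroup E)
    (_ : AddCommGroup F) (_ : TopologicalSpace F) (_ : IsTopologicalAddGroup F)
    (ω : E → F → A),
    (∀ b b' c, ω (b + b') c = ω b c + ω b' c) ∧ (∀ b c c', ω b (c + c') = ω b c + ω b c') ∧
    Continuous (fun q : E × F => ω q.1 q.2) ∧
    ∃ φ : G ≃ₜ A × E × F, ∀ x y : G, φ (x * y) =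
      ((φ x).1 + (φ y).1 + ω (φ x).2.1 (φ y).2.2, (φ x).2.1 + (φ y).2.1, (φ x).2.2 + (φ y).2.2)

/-- There is a locally compact Mumford group with centre isomorphic to `𝕋` that is not a generalized
Heisenberg group. -/
theorem result.{u, v, w} : ∃ (G : Type) (_ : Group G) (_ : TopologicalSpace G),
    IsMumfordGroup G ∧ ¬ IsGeneralizedHeisenberg.{u, v, w} G := by
  classical
  refine ⟨Pool.Agent.L0h61.MUM.Mum Pool.Agent.L0h61.MUM.theD, inferInstance, inferInstance, ?_, ?_⟩
  · refine ⟨inferInstance, inferInstance, inferInstance,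
      Pool.Agent.L0h61.MUM.nil2 Pool.Agent.L0h61.MUM.theD,
      Pool.Agent.L0h61.MUM.cen Pool.Agent.L0h61.MUM.theD,
      Pool.Agent.L0h61.MUM.mumf Pool.Agent.L0h61.MUM.theD, fun x y => ?_⟩
    rw [Pool.Agent.L0h61.MUM.mumf_apply, Pool.Agent.L0h61.MUM.cen_comm]
  · rintro ⟨A, E, F, _, _, _, _, _, _, _, _, _, ω, hl, hr, -, φ, hφ⟩
    exact Pool.Agent.L0h61.MUM.not_heis ω hl hr φ hφ

end Pool.Agent.Results.MP_9969af_al.MumfordNotHeisenberg
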